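import Pool.Agent.P.MP_987dc0_co.Main

set_option autoImplicit false

namespace Pool.Agent.Old.MP_987dc0_co.MinRankSizes

open Pool.Agent.P.MP_987dc0_co Filter Topology

/-- The minimum `m r n` of the size of rank `n` over all `r`-differential posets equals the size
`Y r n` of rank `n` of the `r`-th power of Young's lattice for `n ≤ 3`, equals `Y r 4 - ⌊r / 3⌋`
for `n = 4`, and for every fixed `n ≥ 4` satisfies
`Y r n - m r n ~ r ^ (n - 3) / (3 (n - 4)!)` as `r → ∞`. -/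
theorem result :
    ∃ m : ℕ → ℕ → ℕ,
      (∀ r n : ℕ, 1 ≤ r → IsLeast (sizes r n) (m r n)) ∧
      (∀ r n : ℕ, 1 ≤ r → n ≤ 3 → m r n = Y r n) ∧
      (∀ r : ℕ, 1 ≤ r → m r 4 + r / 3 = Y r 4) ∧
      (∀ n : ℕ, 4 ≤ n →
        Tendsto (fun r : ℕ => ((Y r n : ℝ) - (m r n : ℝ)) / (r : ℝ) ^ (n - 3)) atTop
          (𝓝 (1 / (3 * ((n - 4).factorial : ℝ))))) :=
  ⟨mm, fun r n _ => mm_isLeast r n, fun r n _ hn => mm_small r n hn, mm_four, mm_asymp⟩

end Pool.Agent.Old.MP_987dc0_co.MinRankSizes
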