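import Pool.Statements.S10310
import Pool.Agent.P.MP_987dc0_co.Example

set_option autoImplicit false
open Pool Pool.MP_987dc0_co

namespace Pool.Agent.Old.S10310

/-- The negation of the preceding statement: For every r ≥ 1, every r-differential poset has, in each rank n, at least as many elements as the number of r-tuples of partitions of total size n, i.e. at least the rank-n size of the r-th power of Young's lattice. -/
theorem result :
    ¬ (∀ (r : ℕ), 0 < r →
      ∀ (P : Type) [PartialOrder P] [OrderBot P] [LocallyFiniteOrder P] (ρ : P → ℕ),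
        ρ ⊥ = 0 →
        (∀ x y : P, x ⋖ y → ρ y = ρ x + 1) →
        (∀ n : ℕ, {x : P | ρ x = n}.Finite) →
        (∀ x : P, {z : P | x ⋖ z}.Finite ∧
            {z : P | x ⋖ z}.ncard = {z : P | z ⋖ x}.ncard + r) →
        (∀ x y : P, x ≠ y →
            {z : P | z ⋖ x ∧ z ⋖ y}.ncard = {z : P | x ⋖ z ∧ y ⋖ z}.ncard) →
        ∀ n : ℕ,
          (∑ f ∈ Finset.Nat.antidiagonalTuple r n, ∏ i, Fintype.card (Nat.Partition (f i)))
            ≤ {x : P | ρ x = n}.ncard) := by
  intro h
  have h4 := h 3 (by norm_num) Pool.Agent.P.MP_987dc0_co.G.V Pool.Agent.P.MP_987dc0_co.G.rk rfl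
    (fun x y hxy => Pool.Agent.P.MP_987dc0_co.GG.up_rk
      (Pool.Agent.P.MP_987dc0_co.GG.covBy_iff.1 hxy))
    Pool.Agent.P.MP_987dc0_co.GG.level_finite
    (Pool.Agent.P.MP_987dc0_co.GG.degree 3 Pool.Agent.P.MP_987dc0_co.deg0
      Pool.Agent.P.MP_987dc0_co.deg)
    (Pool.Agent.P.MP_987dc0_co.GG.common Pool.Agent.P.MP_987dc0_co.com) 4
  rw [Pool.Agent.P.MP_987dc0_co.level_four] at h4
  have h5 := Pool.Agent.P.MP_987dc0_co.young_four
  omega

end Pool.Agent.Old.S10310
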